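import Mathlib

set_option autoImplicit false

/-!
The acyclic reorientation poset `AR_D` is a supersolvable lattice (in the sense of Stanley) if
and only if the underlying graph of `D` is a forest.
-/

namespace Pool.Agent.Results.MP_af84f5_co.Forests

open Relation

universe u

/-- A digraph (relation) without directed cycles; in particular without loops and digons. -/
def IsAcyclicRel {V : Type u} (R : V → V → Prop) : Prop := ∀ v, ¬ TransGen R v v

/-- The digraph `D^S`: the arcs of `D` in `S` are reversed. -/
def rev {V : Type u} (D : V → V → Prop) (S : Set (V × V)) (u v : V) : Prop :=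
  (D u v ∧ (u, v) ∉ S) ∨ (D v u ∧ (v, u) ∈ S)

/-- The acyclic reorientation poset `AR_D`: the sets `S` of arcs with `D^S` acyclic, ordered by
inclusion. -/
abbrev AR {V : Type u} (D : V → V → Prop) : Type u :=
  {S : Set (V × V) // (∀ a ∈ S, D a.1 a.2) ∧ IsAcyclicRel (rev D S)}

/-- Stanley's definition: some maximal chain `M` generates together with every chain `K` a
distributive sublattice. -/
def IsSupersolvable (L : Type u) [Lattice L] : Prop :=
  ∃ M : Set L, IsMaxChain (· ≤ ·) M ∧ ∀ K : Set L, IsChain (· ≤ ·) K →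
    ∀ a ∈ latticeClosure (M ∪ K), ∀ b ∈ latticeClosure (M ∪ K), ∀ c ∈ latticeClosure (M ∪ K),
      a ⊓ (b ⊔ c) = (a ⊓ b) ⊔ (a ⊓ c)

/-- The poset `P` is a lattice and this lattice is supersolvable. -/
def IsSupersolvableLattice (P : Type u) [PartialOrder P] : Prop :=
  ∃ L : Lattice P, (∀ a b : P, L.le a b ↔ a ≤ b) ∧ @IsSupersolvable P L

/-- The subdigraph of `D` induced by `s` is peo-consistent. -/
inductive PeoOn {V : Type u} (D : V → V → Prop) : Set V → Prop
  | small (s : Set V) (h : s.Subsingleton) : PeoOn D s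
  | step (s : Set V) (v : V) (hv : v ∈ s)
      (hend : (∀ u ∈ s, ¬ D u v) ∨ (∀ u ∈ s, ¬ D v u))
      (hsimp : ∀ u ∈ s, ∀ w ∈ s, (D u v ∨ D v u) → (D w v ∨ D v w) → u ≠ w → (D u w ∨ D w u))
      (h : PeoOn D (s \ {v})) : PeoOn D s

/-- `D` is peo-consistent. -/
def PeoConsistent {V : Type u} (D : V → V → Prop) : Prop := PeoOn D Set.univ

/-! ### Basic facts on directed cycles -/

section Basic

variable {V : Type u}

theorem loopless {R : V → V → Prop} (h : IsAcyclicRel R) (v : V) : ¬ R v v :=
  fun h1 => h v (TransGen.single h1)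

theorem no_digon {R : V → V → Prop} (h : IsAcyclicRel R) {u v : V} (h1 : R u v) (h2 : R v u) : False :=
  h u (TransGen.head h1 (TransGen.single h2))

/-- a strictly increasing function forbids directed cycles -/
theorem acyclic_of_lt {R : V → V → Prop} (f : V → ℕ) (h : ∀ u v, R u v → f u < f v) :
    IsAcyclicRel R := by
  have key : ∀ u v, TransGen R u v → f u < f v := by
    intro u v huv
    induction huv with
    | single h1 => exact h _ _ h1
    | tail _ h1 ih => exact ih.trans (h _ _ h1)
  exact fun v hv => lt_irrefl _ (key v v hv)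

/-- a finite acyclic digraph has an injective strictly increasing function -/
theorem exists_order [Finite V] {R : V → V → Prop} (h : IsAcyclicRel R) :
    ∃ f : V → ℕ, Function.Injective f ∧ ∀ u v, R u v → f u < f v := by
  classical
  obtain ⟨n, ⟨e⟩⟩ := Finite.exists_equiv_fin V
  let g : V → ℕ := fun v => Set.ncard {u | TransGen R u v}
  have hg : ∀ u v, R u v → g u < g v := by
    intro u v huv
    apply Set.ncard_lt_ncard _ (Set.toFinite _)
    constructor
    · intro w hw
      exact TransGen.tail hw huv
    · intro hsub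
      have h1 : u ∈ {w | TransGen R w u} := hsub (TransGen.single huv)
      exact h u h1
  refine ⟨fun v => g v * n + (e v : ℕ), ?_, ?_⟩
  · intro u v huv
    have hu := (e u).isLt
    have hv := (e v).isLt
    have hn : 0 < n := by omega
    simp only at huv
    have h1 : (g u * n + (e u : ℕ)) % n = (g v * n + (e v : ℕ)) % n := by rw [huv]
    have h2 : ∀ (c : ℕ) (d : ℕ), d < n → (c * n + d) % n = d := by
      intro c d hd
      rw [Nat.mul_comm, Nat.mul_add_mod, Nat.mod_eq_of_lt hd]
    rw [h2 _ _ hu, h2 _ _ hv] at h1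
    exact e.injective (Fin.ext h1)
  · intro u v huv
    have h1 := hg u v huv
    have hu := (e u).isLt
    have h2 : (g u + 1) * n ≤ g v * n := Nat.mul_le_mul_right _ h1
    simp only
    nlinarith

/-- all arcs of a closed directed walk can be returned along -/
theorem trans_return {R : V → V → Prop} {u v : V} (h : TransGen R u v) (hvu : ReflTransGen R v u) :
    TransGen (fun x y => R x y ∧ ReflTransGen R y x) u v := by
  induction h with
  | single h1 => exact TransGen.single ⟨h1, hvu⟩
  | @tail b c h1 h2 ih =>
    have h3 : ReflTransGen R b u := ReflTransGen.head h2 hvu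
    have h4 : ReflTransGen R c b := hvu.trans h1.to_reflTransGen
    exact TransGen.tail (ih h3) ⟨h2, h4⟩

/-- an oriented bridge is never on a directed cycle -/
theorem bridge_no_return {G : SimpleGraph V} {R : V → V → Prop} (hR : ∀ x y, R x y → G.Adj x y)
    {x y : V} (hyx : ¬ R y x) (hb : G.IsBridge s(x, y)) : ¬ ReflTransGen R y x := by
  intro h
  rw [SimpleGraph.isBridge_iff] at hb
  apply hb
  have key : ∀ w, ReflTransGen R w x → (G.deleteEdges {s(x, y)}).Reachable w x := by
    intro w hw
    induction hw using ReflTransGen.head_induction_on with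
    | refl => exact SimpleGraph.Reachable.refl _
    | @head a c hac _ ih =>
      by_cases he : s(a, c) = s(x, y)
      · rw [Sym2.eq_iff] at he
        rcases he with ⟨h1, _⟩ | ⟨h1, h2⟩
        · rw [h1]
        · rw [h1, h2] at hac
          exact absurd hac hyx
      · have hadj : (G.deleteEdges {s(x, y)}).Adj a c := by
          rw [SimpleGraph.deleteEdges_adj]
          exact ⟨hR _ _ hac, he⟩
        exact hadj.reachable.trans ih
  exact (key y h).symm

end Basic

/-! ### The poset `AR_D` -/

section Poset

variable {V : Type u} {D : V → V → Prop}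

theorem rev_empty (D : V → V → Prop) : rev D ∅ = D := by
  funext u v
  unfold rev
  simp

/-- the least element -/
def botAR (hD : IsAcyclicRel D) : AR D :=
  ⟨∅, by simp, by rw [rev_empty]; exact hD⟩

theorem rev_univ_acyclic (hD : IsAcyclicRel D) : IsAcyclicRel (rev D {a | D a.1 a.2}) := by
  intro v hv
  have key : ∀ u v, TransGen (rev D {a | D a.1 a.2}) u v → TransGen D v u := by
    intro u v h
    have hstep : ∀ u v, rev D {a | D a.1 a.2} u v → D v u := by
      rintro u v (⟨h1, h2⟩ | ⟨h1, _⟩)
      · exact absurd h1 h2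
      · exact h1
    induction h with
    | single h1 => exact TransGen.single (hstep _ _ h1)
    | tail _ h1 ih => exact TransGen.head (hstep _ _ h1) ih
  exact hD v (key v v hv)

/-- the greatest element -/
def topAR (hD : IsAcyclicRel D) : AR D :=
  ⟨{a | D a.1 a.2}, fun _ h => h, rev_univ_acyclic hD⟩

theorem cut_cycle {R : V → V → Prop} {a b : V} {x y : V}
    (h : TransGen (fun u v => R u v ∨ (u = b ∧ v = a)) x y) :
    TransGen R x y ∨ (ReflTransGen R x b ∧ ReflTransGen R a y) := by
  induction h with
  | single h1 =>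
    rcases h1 with h1 | ⟨h1, h2⟩
    · exact Or.inl (TransGen.single h1)
    · right
      rw [h1, h2]
      exact ⟨ReflTransGen.refl, ReflTransGen.refl⟩
  | tail _ h1 ih =>
    rcases h1 with h1 | ⟨h1, h2⟩
    · rcases ih with ih | ⟨ih1, ih2⟩
      · exact Or.inl (ih.tail h1)
      · exact Or.inr ⟨ih1, ih2.tail h1⟩
    · right
      rcases ih with ih | ⟨ih1, _⟩
      · refine ⟨?_, by rw [h2]⟩
        rw [← h1]
        exact ih.to_reflTransGen
      · exact ⟨ih1, by rw [h2]⟩

/-- `AR_D` is graded by cardinality: below a larger element one arc can be added. -/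
theorem graded [Finite V] (hD : IsAcyclicRel D) (S T : AR D) (hST : S < T) :
    ∃ e, e ∈ T.1 ∧ e ∉ S.1 ∧ ∃ S' : AR D, S'.1 = insert e S.1 := by
  classical
  have hsub : S.1 ⊆ T.1 := hST.le
  have hne : (T.1 \ S.1).Nonempty := by
    by_contra h
    rw [Set.not_nonempty_iff_eq_empty, Set.sdiff_eq_empty] at h
    exact absurd (le_antisymm hST.le h) hST.ne
  obtain ⟨g, hginj, hg⟩ := exists_order S.2.2
  have hspan : ∀ x : V × V, x ∈ T.1 \ S.1 → g x.1 < g x.2 := by
    intro x hx
    exact hg _ _ (Or.inl ⟨T.2.1 x hx.1, hx.2⟩)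
  obtain ⟨e, he, hmin⟩ := Set.exists_min_image (T.1 \ S.1) (fun x => g x.2 - g x.1)
    (Set.toFinite _) hne
  refine ⟨e, he.1, he.2, ⟨insert e S.1, ?_, ?_⟩, rfl⟩
  · intro x hx
    rcases hx with rfl | hx
    · exact T.2.1 _ he.1
    · exact S.2.1 _ hx
  · obtain ⟨a, b⟩ := e
    have hab : D a b := T.2.1 _ he.1
    intro v hv
    let R : V → V → Prop := fun x y => rev D S.1 x y ∧ (x, y) ≠ (a, b)
    have hR : ∀ x y, rev D (insert (a, b) S.1) x y → R x y ∨ (x = b ∧ y = a) := by
      rintro x y (⟨h1, h2⟩ | ⟨h1, h2⟩)
      · left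
        refine ⟨Or.inl ⟨h1, fun h => h2 (Or.inr h)⟩, fun h => h2 (Or.inl h)⟩
      · rcases h2 with h2 | h2
        · right
          exact ⟨congrArg Prod.snd h2, congrArg Prod.fst h2⟩
        · left
          refine ⟨Or.inr ⟨h1, h2⟩, ?_⟩
          intro h
          have e1 : x = a := congrArg Prod.fst h
          have e2 : y = b := congrArg Prod.snd h
          rw [e1, e2] at h1
          exact no_digon hD hab h1
    have hv2 : TransGen (fun x y => R x y ∨ (x = b ∧ y = a)) v v :=
      TransGen.mono (fun x y h => hR x y h) _ _ hv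
    rcases cut_cycle hv2 with h1 | ⟨h1, h2⟩
    · exact S.2.2 v (TransGen.mono (r := R) (fun x y h => h.1) _ _ h1)
    · have hpath : ReflTransGen R a b := h2.trans h1
      -- every arc on this path outside `T` forces a short arc of `T \ S`
      have key : ∀ x, ReflTransGen R a x → (∃ p q, R p q ∧ (p, q) ∈ T.1 \ S.1 ∧ g a ≤ g p ∧ g q ≤ g x) ∨
          (ReflTransGen (rev D T.1) a x) := by
        intro x hx
        induction hx with
        | refl => exact Or.inr ReflTransGen.refl
        | @tail y z _ h4 ih =>
          have hyz : g y < g z := hg _ _ h4.1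
          rcases ih with ⟨p, q, h5, h6, h7, h8⟩ | ih
          · exact Or.inl ⟨p, q, h5, h6, h7, h8.trans hyz.le⟩
          · rcases h4.1 with ⟨h5, h6⟩ | ⟨h5, h6⟩
            · by_cases h7 : (y, z) ∈ T.1
              · left
                refine ⟨y, z, h4, ⟨h7, h6⟩, ?_, le_refl _⟩
                have hmono : ∀ w, ReflTransGen (rev D T.1) a w → ReflTransGen R a w → g a ≤ g w := by
                  intro w _ hw
                  clear * - hw hg
                  induction hw with
                  | refl => exact le_refl _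
                  | tail _ h9 ih => exact ih.trans (hg _ _ h9.1).le
                apply hmono y ih
                assumption
              · exact Or.inr (ih.tail (Or.inl ⟨h5, h7⟩))
            · exact Or.inr (ih.tail (Or.inr ⟨h5, hsub h6⟩))
      rcases key b hpath with ⟨p, q, h5, h6, h7, h8⟩ | h5
      · have h9 := hmin (p, q) h6
        have h10 := hspan _ h6
        have h11 := hspan _ he
        simp only at h9 h10 h11
        have e1 : g p = g a := by omega
        have e2 : g q = g b := by omega
        apply h5.2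
        rw [hginj e1, hginj e2]
      · apply T.2.2 b
        exact TransGen.head' (Or.inr ⟨hab, he.1⟩) h5

/-- an injective function orients `D` acyclically -/
theorem order_acyclic (f : V → ℕ) (hf : Function.Injective f) (hD : IsAcyclicRel D) :
    IsAcyclicRel (rev D {x | D x.1 x.2 ∧ f x.2 < f x.1}) := by
  apply acyclic_of_lt f
  rintro x y (⟨h1, h2⟩ | ⟨_, h2⟩)
  · have hne : f x ≠ f y := by
      intro h
      have := hf h
      rw [this] at h1
      exact loopless hD _ h1
    have h3 : ¬ f y < f x := fun h => h2 ⟨h1, h⟩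
    omega
  · exact h2.2

/-- the reorientation used in the main argument -/
theorem exists_y [Finite V] (hD : IsAcyclicRel D) (B : Set (V × V)) (hB : ∀ x ∈ B, D x.1 x.2)
    (hbr : ∀ x ∈ B, (SimpleGraph.fromRel D).IsBridge s(x.1, x.2)) {a b : V} (hab : D a b)
    (hnb : ¬ (SimpleGraph.fromRel D).IsBridge s(a, b)) :
    ∃ y : AR D, B ⊆ y.1 ∧ (a, b) ∉ y.1 ∧ ¬ IsAcyclicRel (rev D (insert (a, b) y.1)) := by
  classical
  set G := SimpleGraph.fromRel D with hG
  have hadj : ∀ x y, D x y → G.Adj x y := by
    intro x y h
    rw [hG, SimpleGraph.fromRel_adj]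
    exact ⟨fun h1 => loopless hD y (h1 ▸ h), Or.inl h⟩
  rw [SimpleGraph.isBridge_iff, not_not] at hnb
  set G' := G.deleteEdges {s(a, b)} with hG'
  obtain ⟨p, hp⟩ := hnb.exists_isPath
  have hle : G' ≤ G := SimpleGraph.deleteEdges_le _
  have hmem : ∀ i, i < p.length → ¬ G.IsBridge s(p.getVert i, p.getVert (i + 1)) := by
    intro i hi hbridge
    have hnot : s(b, a) ∉ (p.mapLe hle).edges := by
      rw [SimpleGraph.Walk.edges_mapLe_eq_edges]
      intro h
      have h1 := p.edges_subset_edgeSet h
      rw [SimpleGraph.mem_edgeSet, hG', SimpleGraph.deleteEdges_adj] at h1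
      exact h1.2 (Sym2.eq_swap)
    have hcyc : (SimpleGraph.Walk.cons (hadj a b hab).symm (p.mapLe hle)).IsCycle := by
      rw [SimpleGraph.Walk.cons_isCycle_iff]
      exact ⟨hp.mapLe hle, hnot⟩
    apply hbridge.notMem_edges_of_isCycle hcyc
    rw [SimpleGraph.Walk.edges_cons, List.mem_cons, SimpleGraph.Walk.edges_mapLe_eq_edges]
    right
    rw [SimpleGraph.Walk.mk_mem_edges_iff_exists]
    exact ⟨i, hi, rfl⟩
  let R1 : V → V → Prop := fun x y => ∃ i, i < p.length ∧ x = p.getVert i ∧ y = p.getVert (i + 1)
  let R0 : V → V → Prop := fun x y => R1 x y ∨ (y, x) ∈ B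
  have hR1adj : ∀ x y, R1 x y → G'.Adj x y := by
    rintro x y ⟨i, hi, rfl, rfl⟩
    exact p.adj_getVert_succ hi
  have hR0adj : ∀ x y, R0 x y → G.Adj x y := by
    rintro x y (h | h)
    · exact hle (hR1adj x y h)
    · exact (hadj _ _ (hB _ h)).symm
  have hR1br : ∀ x y, R1 x y → ¬ G.IsBridge s(x, y) := by
    rintro x y ⟨i, hi, rfl, rfl⟩
    exact hmem i hi
  have hR1acyc : ∀ x y, TransGen R1 x y → ∃ i j, i < j ∧ j ≤ p.length ∧ x = p.getVert i ∧ y = p.getVert j := by
    intro x y h
    induction h with
    | single h1 =>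
      obtain ⟨i, hi, e1, e2⟩ := h1
      exact ⟨i, i + 1, by omega, by omega, e1, e2⟩
    | tail _ h1 ih =>
      obtain ⟨i, j, hij, hj, e1, e2⟩ := ih
      obtain ⟨k, hk, e3, e4⟩ := h1
      have hjk : j = k := hp.getVert_injOn (by rw [Set.mem_ofPred_eq]; exact hj)
        (by rw [Set.mem_ofPred_eq]; omega) (e2.symm.trans e3)
      exact ⟨i, k + 1, by omega, by omega, e1, e4⟩
  have hR0acyc : IsAcyclicRel R0 := by
    intro v hv
    have h1 := trans_return hv ReflTransGen.refl
    have h2 : TransGen R1 v v := by
      refine TransGen.mono ?_ _ _ h1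
      rintro x y ⟨h3, h4⟩
      rcases h3 with h3 | h3
      · exact h3
      · exfalso
        have hbxy : G.IsBridge s(x, y) := by
          have := hbr _ h3
          rwa [Sym2.eq_swap] at this
        refine bridge_no_return hR0adj ?_ hbxy h4
        rintro (h5 | h5)
        · apply hR1br _ _ h5
          rwa [Sym2.eq_swap]
        · exact no_digon hD (hB _ h3) (hB _ h5)
    obtain ⟨i, j, hij, hj, e1, e2⟩ := hR1acyc v v h2
    have : i = j := hp.getVert_injOn (by rw [Set.mem_ofPred_eq]; omega)
      (by rw [Set.mem_ofPred_eq]; exact hj) (e1.symm.trans e2)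
    omega
  obtain ⟨f, hf, hf0⟩ := exists_order hR0acyc
  have hab1 : ReflTransGen R1 a b := by
    have h1 : ∀ i, i ≤ p.length → ReflTransGen R1 a (p.getVert i) := by
      intro i
      induction i with
      | zero => intro _; rw [SimpleGraph.Walk.getVert_zero]
      | succ i ih =>
        intro hi
        exact (ih (by omega)).tail ⟨i, by omega, rfl, rfl⟩
    have h2 := h1 p.length (le_refl _)
    rwa [SimpleGraph.Walk.getVert_length] at h2
  have hne : a ≠ b := fun h => loopless hD b (h ▸ hab)
  have hab2 : TransGen R1 a b := by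
    rcases Relation.reflTransGen_iff_eq_or_transGen.1 hab1 with h | h
    · exact absurd h.symm hne
    · exact h
  have hfab : f a < f b := by
    have key : ∀ x y, TransGen R1 x y → f x < f y := by
      intro x y h
      induction h with
      | single h1 => exact hf0 _ _ (Or.inl h1)
      | tail _ h1 ih => exact ih.trans (hf0 _ _ (Or.inl h1))
    exact key _ _ hab2
  refine ⟨⟨{x | D x.1 x.2 ∧ f x.2 < f x.1}, fun x hx => hx.1, order_acyclic f hf hD⟩, ?_, ?_, ?_⟩
  · rintro ⟨x, y⟩ hx
    exact ⟨hB _ hx, hf0 _ _ (Or.inr hx)⟩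
  · rintro ⟨_, h2⟩
    simp only at h2
    omega
  · intro hacyc
    apply hacyc a
    have hsub : ∀ x y, R1 x y → rev D (insert (a, b) {x | D x.1 x.2 ∧ f x.2 < f x.1}) x y := by
      intro x y h
      have h1 := hR1adj x y h
      have h2 : f x < f y := hf0 _ _ (Or.inl h)
      rw [hG', SimpleGraph.deleteEdges_adj, hG, SimpleGraph.fromRel_adj] at h1
      rcases h1.1.2 with h3 | h3
      · left
        refine ⟨h3, ?_⟩
        rintro (h4 | h4)
        · apply h1.2
          have e1 : x = a := congrArg Prod.fst h4
          have e2 : y = b := congrArg Prod.snd h4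
          rw [e1, e2]
          rfl
        · have h5 : f y < f x := h4.2
          omega
      · right
        exact ⟨h3, Or.inr ⟨h3, h2⟩⟩
    exact (TransGen.mono hsub _ _ hab2).tail (Or.inr ⟨hab, Or.inl rfl⟩)

end Poset

/-! ### Supersolvable implies forest -/

/-- consequences of supersolvability in a lattice -/
theorem modular_core {P : Type u} [Lattice P] (h : IsSupersolvable P) :
    ∃ M : Set P, IsMaxChain (· ≤ ·) M ∧ ∀ m ∈ M, ∀ y z, y ≤ z → z ≤ y ⊔ m → z ⊓ m ≤ y → z ≤ y := by
  obtain ⟨M, hM, hdis⟩ := h
  refine ⟨M, hM, ?_⟩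
  intro m hm y z hyz h4 h5
  have hchain : IsChain (· ≤ ·) ({y, z} : Set P) := by
    intro p hp q hq hpq
    simp only [Set.mem_insert_iff, Set.mem_singleton_iff] at hp hq
    rcases hp with rfl | rfl <;> rcases hq with rfl | rfl
    · exact absurd rfl hpq
    · exact Or.inl hyz
    · exact Or.inr hyz
    · exact absurd rfl hpq
  have h3 := hdis {y, z} hchain z (subset_latticeClosure (Or.inr (Or.inr rfl)))
    y (subset_latticeClosure (Or.inr (Or.inl rfl))) m (subset_latticeClosure (Or.inl hm))
  calc z ≤ z ⊓ (y ⊔ m) := le_inf le_rfl h4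
    _ = (z ⊓ y) ⊔ (z ⊓ m) := h3
    _ ≤ y := sup_le inf_le_right h5

/-- consequences of supersolvability in terms of the order alone -/
theorem modular_of_supersolvable {P : Type u} [PartialOrder P] (h : IsSupersolvableLattice P) :
    (∀ x y : P, ∃ j, x ≤ j ∧ y ≤ j ∧ ∀ u, x ≤ u → y ≤ u → j ≤ u) ∧
    ∃ M : Set P, IsMaxChain (· ≤ ·) M ∧ ∀ m ∈ M, ∀ y z, y ≤ z → (∀ u, y ≤ u → m ≤ u → z ≤ u) →
      (∀ u, u ≤ m → u ≤ z → u ≤ y) → z ≤ y := by
  obtain ⟨L, hL, hss⟩ := h
  constructor
  · intro x y
    refine ⟨L.sup x y, (hL _ _).1 (@le_sup_left P L.toSemilatticeSup x y),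
      (hL _ _).1 (@le_sup_right P L.toSemilatticeSup x y), ?_⟩
    intro u h1 h2
    exact (hL _ _).1 (@sup_le P L.toSemilatticeSup x y u ((hL _ _).2 h1) ((hL _ _).2 h2))
  · obtain ⟨M, hM, hmod⟩ := @modular_core P L hss
    refine ⟨M, ?_, ?_⟩
    · constructor
      · intro x hx y hy hxy
        rcases hM.1 hx hy hxy with h1 | h1
        · exact Or.inl ((hL _ _).1 h1)
        · exact Or.inr ((hL _ _).1 h1)
      · intro t ht hsub
        apply hM.2 _ hsub
        intro x hx y hy hxy
        rcases ht hx hy hxy with h1 | h1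
        · exact Or.inl ((hL _ _).2 h1)
        · exact Or.inr ((hL _ _).2 h1)
    · intro m hm y z hyz h1 h2
      apply (hL _ _).1
      apply hmod m hm y z ((hL _ _).2 hyz)
      · exact (hL _ _).2 (h1 _ ((hL _ _).1 (@le_sup_left P L.toSemilatticeSup y m))
          ((hL _ _).1 (@le_sup_right P L.toSemilatticeSup y m)))
      · exact (hL _ _).2 (h2 _ ((hL _ _).1 (@inf_le_right P L.toSemilatticeInf z m))
          ((hL _ _).1 (@inf_le_left P L.toSemilatticeInf z m)))

theorem mem_of_comparable {P : Type u} [PartialOrder P] {M : Set P} (hM : IsMaxChain (· ≤ ·) M) (x : P)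
    (hx : ∀ m ∈ M, x ≤ m ∨ m ≤ x) : x ∈ M := by
  have h1 : IsChain (· ≤ ·) (insert x M) := hM.1.insert (fun b hb _ => hx b hb)
  have h2 := hM.2 h1 (Set.subset_insert _ _)
  rw [h2]
  exact Set.mem_insert _ _

theorem forest_of_supersolvable {V : Type u} [Finite V] {D : V → V → Prop} (hD : IsAcyclicRel D)
    (h : IsSupersolvableLattice (AR D)) : (SimpleGraph.fromRel D).IsAcyclic := by
  classical
  obtain ⟨hjoin, M, hM, hmod⟩ := modular_of_supersolvable h
  have hbot : botAR hD ∈ M := mem_of_comparable hM _ (fun m _ => Or.inl (fun x hx => absurd hx (Set.notMem_empty x)))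
  have htop : topAR hD ∈ M := mem_of_comparable hM _ (fun m _ => Or.inr (fun x hx => m.2.1 x hx))
  have main : ∀ n : ℕ, ∀ m ∈ M, m.1.ncard = n → ∀ e ∈ m.1, (SimpleGraph.fromRel D).IsBridge s(e.1, e.2) := by
    intro n
    induction n using Nat.strong_induction_on with
    | _ n ih =>
      intro m hm hn e he
      -- the element of `M` just below `m`
      have hlt0 : botAR hD < m := by
        refine lt_of_le_of_ne (fun x hx => absurd hx (Set.notMem_empty x)) ?_
        intro h1
        rw [← h1] at he
        exact Set.notMem_empty _ he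
      obtain ⟨m', hm', hmax⟩ := Set.exists_max_image {x : AR D | x ∈ M ∧ x < m} (fun x => x.1.ncard)
        (Set.toFinite _) ⟨_, hbot, hlt0⟩
      obtain ⟨f, hf1, hf2, m'', hf3⟩ := graded hD m' m hm'.2
      have hle1 : m' ≤ m'' := by
        intro x hx
        rw [hf3]
        exact Or.inr hx
      have hlt1 : m' < m'' := by
        refine lt_of_le_of_ne hle1 ?_
        intro h1
        apply hf2
        rw [h1, hf3]
        exact Or.inl rfl
      have hle2 : m'' ≤ m := by
        intro x hx
        rw [hf3] at hx
        rcases hx with rfl | hx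
        · exact hf1
        · exact hm'.2.le hx
      have hcardlt : ∀ x y : AR D, x < y → x.1.ncard < y.1.ncard := by
        intro x y hxy
        exact Set.ncard_lt_ncard hxy (Set.toFinite _)
      have hm''M : m'' ∈ M := by
        apply mem_of_comparable hM
        intro x hx
        by_cases hxm : x = m'
        · right; rw [hxm]; exact hle1
        · rcases hM.1 hx hm'.1 hxm with h1 | h1
          · exact Or.inr (h1.trans hle1)
          · by_cases hxm2 : x = m
            · left; rw [hxm2]; exact hle2
            · rcases hM.1 hx hm hxm2 with h2 | h2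
              · exfalso
                have h3 := hmax x ⟨hx, lt_of_le_of_ne h2 hxm2⟩
                have h4 := hcardlt m' x (lt_of_le_of_ne h1 (Ne.symm hxm))
                omega
              · exact Or.inl (hle2.trans h2)
      have hm'' : m'' = m := by
        by_contra hne
        have h3 := hmax m'' ⟨hm''M, lt_of_le_of_ne hle2 hne⟩
        have h4 := hcardlt m' m'' hlt1
        omega
      have hm1 : m.1 = insert f m'.1 := by rw [← hm'', hf3]
      have hbr : ∀ x ∈ m'.1, (SimpleGraph.fromRel D).IsBridge s(x.1, x.2) := by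
        have h5 := hcardlt m' m hm'.2
        exact ih m'.1.ncard (by omega) m' hm'.1 rfl
      rw [hm1] at he
      rcases he with rfl | he
      · by_contra hnb
        obtain ⟨a, b⟩ := e
        obtain ⟨y, hy1, hy2, hy3⟩ := exists_y hD m'.1 m'.2.1 hbr (m.2.1 _ hf1) hnb
        obtain ⟨j, hj1, hj2, hj3⟩ := hjoin y m
        have hyj : y < j := by
          refine lt_of_le_of_ne hj1 ?_
          intro h1
          apply hy2
          rw [h1]
          exact hj2 hf1
        obtain ⟨g, hg1, hg2, z, hg3⟩ := graded hD y j hyj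
        have hgne : g ≠ (a, b) := by
          intro h1
          apply hy3
          rw [← h1, ← hg3]
          exact z.2.2
        have hyz : y ≤ z := by
          intro x hx
          rw [hg3]
          exact Or.inr hx
        have hzj : z ≤ j := by
          intro x hx
          rw [hg3] at hx
          rcases hx with rfl | hx
          · exact hg1
          · exact hj1 hx
        have hzy : z ≤ y := by
          apply hmod m hm y z hyz
          · intro u hu1 hu2
            exact hzj.trans (hj3 u hu1 hu2)
          · intro u hu1 hu2 x hx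
            have h6 : x ∈ m.1 := hu1 hx
            have h7 : x ∈ z.1 := hu2 hx
            rw [hg3] at h7
            rcases h7 with h7 | h7
            · rw [hm1] at h6
              rcases h6 with h6 | h6
              · exact absurd (h7.symm.trans h6) hgne
              · exact hy1 h6
            · exact h7
        apply hg2
        apply hzy
        rw [hg3]
        exact Or.inl rfl
      · exact hbr e he
  rw [SimpleGraph.isAcyclic_iff_forall_adj_isBridge]
  intro v w hvw
  rw [SimpleGraph.fromRel_adj] at hvw
  rcases hvw.2 with h1 | h1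
  · exact main _ _ htop rfl (v, w) h1
  · have := main _ _ htop rfl (w, v) h1
    rwa [Sym2.eq_swap] at this

/-! ### Forests -/

theorem adj_of_rev {V : Type u} {D : V → V → Prop} (hD : IsAcyclicRel D) (S : Set (V × V)) :
    ∀ x y, rev D S x y → (SimpleGraph.fromRel D).Adj x y := by
  rintro x y (⟨h1, _⟩ | ⟨h1, _⟩)
  · rw [SimpleGraph.fromRel_adj]
    exact ⟨fun h => loopless hD y (h ▸ h1), Or.inl h1⟩
  · rw [SimpleGraph.fromRel_adj]
    exact ⟨fun h => loopless hD x (h ▸ h1), Or.inr h1⟩

theorem forest_all {V : Type u} {D : V → V → Prop} (hD : IsAcyclicRel D)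
    (hF : (SimpleGraph.fromRel D).IsAcyclic) (S : Set (V × V)) : IsAcyclicRel (rev D S) := by
  intro v hv
  obtain ⟨w, h1, h2⟩ := TransGen.head'_iff.1 hv
  have hadj := adj_of_rev hD S
  refine bridge_no_return hadj ?_ (SimpleGraph.isAcyclic_iff_forall_adj_isBridge.1 hF (hadj _ _ h1)) h2
  intro h3
  rcases h1 with ⟨h1, h1'⟩ | ⟨h1, h1'⟩ <;> rcases h3 with ⟨h3, h3'⟩ | ⟨h3, h3'⟩
  · exact no_digon hD h1 h3
  · exact h1' h3'
  · exact h3' h1'
  · exact no_digon hD h1 h3

theorem supersolvable_of_forest {V : Type u} {D : V → V → Prop} (hD : IsAcyclicRel D)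
    (hF : (SimpleGraph.fromRel D).IsAcyclic) : IsSupersolvableLattice (AR D) := by
  let L : Lattice (AR D) :=
    { (inferInstance : PartialOrder (AR D)) with
      sup := fun S T => ⟨S.1 ∪ T.1, fun a ha => ha.elim (S.2.1 a) (T.2.1 a), forest_all hD hF _⟩
      inf := fun S T => ⟨S.1 ∩ T.1, fun a ha => S.2.1 a ha.1, forest_all hD hF _⟩
      le_sup_left := fun S T => Set.subset_union_left
      le_sup_right := fun S T => Set.subset_union_right
      sup_le := fun S T U h1 h2 => Set.union_subset h1 h2
      inf_le_left := fun S T => Set.inter_subset_left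
      inf_le_right := fun S T => Set.inter_subset_right
      le_inf := fun S T U h1 h2 => Set.subset_inter h1 h2 }
  refine ⟨L, fun a b => Iff.rfl, ?_⟩
  refine ⟨maxChain (· ≤ ·), maxChain_spec, ?_⟩
  intro K _ a _ b _ c _
  apply Subtype.ext
  exact Set.inter_union_distrib_left _ _ _

theorem peo_of_forest {V : Type u} [Finite V] {D : V → V → Prop} (hD : IsAcyclicRel D)
    (hF : (SimpleGraph.fromRel D).IsAcyclic) : PeoConsistent D := by
  classical
  have key : ∀ n : ℕ, ∀ s : Set V, s.ncard = n → PeoOn D s := by
    intro n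
    induction n with
    | zero =>
      intro s hs
      rw [Set.ncard_eq_zero (Set.toFinite _)] at hs
      rw [hs]
      exact PeoOn.small _ Set.subsingleton_empty
    | succ n ih =>
      intro s hs
      have hne : s.Nonempty := by
        rw [← Set.ncard_pos (Set.toFinite _)]
        omega
      obtain ⟨r, hr⟩ := hne
      set H := (SimpleGraph.fromRel D).induce s with hH
      have hHac : H.IsAcyclic := hF.induce s
      let r' : s := ⟨r, hr⟩
      obtain ⟨v, hv, hvmax⟩ := Set.exists_max_image {x : s | H.Reachable r' x} (fun x => H.dist r' x)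
        (Set.toFinite _) ⟨r', SimpleGraph.Reachable.refl _⟩
      have hv' : H.Reachable r' v := hv
      -- at most one neighbour
      have huniq : ∀ w1 w2 : s, H.Adj v w1 → H.Adj v w2 → w1 = w2 := by
        have hdist : ∀ w : s, H.Adj v w → H.dist r' v = H.dist r' w + 1 := by
          intro w hw
          rcases hHac.dist_eq_dist_add_one_of_adj_of_reachable r' hw hv' with h1 | h1
          · exact h1
          · exfalso
            have h2 := hvmax w (hv'.trans hw.reachable)
            omega
        intro w1 w2 h1 h2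
        obtain ⟨p1, hp1⟩ := (hv'.trans h1.reachable).exists_walk_length_eq_dist
        obtain ⟨p2, hp2⟩ := (hv'.trans h2.reachable).exists_walk_length_eq_dist
        have q1 : (p1.concat h1.symm).IsPath := by
          apply SimpleGraph.Walk.isPath_of_length_eq_dist
          rw [SimpleGraph.Walk.length_concat, hp1, hdist w1 h1]
        have q2 : (p2.concat h2.symm).IsPath := by
          apply SimpleGraph.Walk.isPath_of_length_eq_dist
          rw [SimpleGraph.Walk.length_concat, hp2, hdist w2 h2]
        have h3 := (hHac.subsingleton_path r' v).elim ⟨_, q1⟩ ⟨_, q2⟩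
        have h4 : p1.concat h1.symm = p2.concat h2.symm := congrArg Subtype.val h3
        have h5 := congrArg SimpleGraph.Walk.penultimate h4
        rwa [SimpleGraph.Walk.penultimate_concat, SimpleGraph.Walk.penultimate_concat] at h5
      have huniq2 : ∀ w1 ∈ s, ∀ w2 ∈ s, (D w1 v ∨ D v w1) → (D w2 v ∨ D v w2) → w1 = w2 := by
        intro w1 hw1 w2 hw2 h1 h2
        have hadj : ∀ w (hw : w ∈ s), (D w v ∨ D v w) → H.Adj v ⟨w, hw⟩ := by
          intro w hw h
          show (SimpleGraph.fromRel D).Adj v w
          rw [SimpleGraph.fromRel_adj]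
          refine ⟨?_, h.symm⟩
          intro h4
          rcases h with h | h
          · rw [h4] at h; exact loopless hD _ h
          · rw [h4] at h; exact loopless hD _ h
        exact congrArg Subtype.val (huniq ⟨w1, hw1⟩ ⟨w2, hw2⟩ (hadj _ _ h1) (hadj _ _ h2))
      refine PeoOn.step s v v.2 ?_ ?_ ?_
      · by_contra hc
        push Not at hc
        obtain ⟨⟨u1, hu1, h1⟩, ⟨u2, hu2, h2⟩⟩ := hc
        have h3 := huniq2 u1 hu1 u2 hu2 (Or.inl h1) (Or.inr h2)
        rw [h3] at h1
        exact no_digon hD h1 h2
      · intro u hu w hw h1 h2 huw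
        exact absurd (huniq2 u hu w hw h1 h2) huw
      · apply ih
        rw [Set.ncard_sdiff_singleton_of_mem v.2]
        omega
  exact key _ _ rfl

/-! ### The transitive triangle -/

/-- the transitive tournament on three vertices -/
def tri : Fin 3 → Fin 3 → Prop := fun x y => x < y

theorem tri_acyclic : IsAcyclicRel tri := acyclic_of_lt (fun x => (x : ℕ)) (fun _ _ h => h)

theorem tri_peo : PeoConsistent tri := by
  have hcomp : ∀ u w : Fin 3, u ≠ w → tri u w ∨ tri w u := fun u w h => lt_or_gt_of_ne h
  have h0 : ∀ u : Fin 3, u ≠ 2 → u ≠ 1 → u = 0 := by decide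
  refine PeoOn.step Set.univ 2 trivial (Or.inr ?_) (fun u _ w _ _ _ h => hcomp u w h) ?_
  · intro u _ h
    have h1 : (2 : Fin 3) < u := h
    omega
  · refine PeoOn.step _ 1 ⟨trivial, by decide⟩ (Or.inr ?_) (fun u _ w _ _ _ h => hcomp u w h) ?_
    · rintro u ⟨_, hu⟩ h
      have h1 : (1 : Fin 3) < u := h
      have h2 : u ≠ 2 := hu
      omega
    · refine PeoOn.small _ ?_
      rintro u ⟨⟨_, hu1⟩, hu2⟩ w ⟨⟨_, hw1⟩, hw2⟩
      rw [h0 u hu1 hu2, h0 w hw1 hw2]

theorem tri_not_forest : ¬ (SimpleGraph.fromRel tri).IsAcyclic := by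
  intro h
  have h1 := h.cliqueFree (le_refl 3)
  apply h1 Finset.univ
  rw [SimpleGraph.isNClique_iff]
  constructor
  · intro x _ y _ hxy
    rw [SimpleGraph.fromRel_adj]
    exact ⟨hxy, lt_or_gt_of_ne hxy⟩
  · rfl

/-- For every finite acyclic digraph `D`, the poset `AR_D` is a supersolvable lattice if and only if
the underlying graph of `D` is a forest; in this case `D` is peo-consistent. The transitive
tournament on three vertices is peo-consistent, but its `AR_D` is not a supersolvable lattice. -/
theorem result :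
    (∀ (V : Type u) [Finite V] (D : V → V → Prop), IsAcyclicRel D →
      (IsSupersolvableLattice (AR D) ↔ (SimpleGraph.fromRel D).IsAcyclic) ∧
      (IsSupersolvableLattice (AR D) → PeoConsistent D)) ∧
    ∃ D : Fin 3 → Fin 3 → Prop, IsAcyclicRel D ∧ PeoConsistent D ∧ ¬ IsSupersolvableLattice (AR D) := by
  refine ⟨fun V _ D hD => ⟨⟨forest_of_supersolvable hD, supersolvable_of_forest hD⟩,
    fun h => peo_of_forest hD (forest_of_supersolvable hD h)⟩, tri, tri_acyclic, tri_peo, ?_⟩
  intro h
  exact tri_not_forest (forest_of_supersolvable tri_acyclic h)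

end Pool.Agent.Results.MP_af84f5_co.Forests
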